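import Pool.Agent.R613.WM.W6

set_option autoImplicit false

/-! # Complex powers: Abel summation and the exponential kernel with a complex exponent -/

namespace Pool.Agent.U736.WR

open MeasureTheory Filter Topology Set
open Pool.Agent.H295R2 (ee)
open Pool.Agent.W120.WM (ZC NT)
open H353.FB (mu Mx)
open Pool.Agent.R305.FM (Ad fC fC_ad Ad.sub Ad.int_sq)
open Pool.Agent.R613.WM

/-- `∑_{n ≤ e^v} a(n)` -/
noncomputable def Cs (a : ℕ → ℂ) (v : ℝ) : ℂ := ∑ n ∈ Finset.Icc 1 ⌊Real.exp v⌋₊, a n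

lemma Cs_neg (a : ℕ → ℂ) {v : ℝ} (hv : v < 0) : Cs a v = 0 := by
  unfold Cs
  have : ⌊Real.exp v⌋₊ = 0 := by
    rw [Nat.floor_eq_zero]
    have := Real.exp_lt_exp.2 hv
    rwa [Real.exp_zero] at this
  rw [this]
  simp

lemma Cs_congr {a b : ℕ → ℂ} (h : ∀ n : ℕ, 1 ≤ n → a n = b n) : Cs a = Cs b := by
  funext v
  unfold Cs
  exact Finset.sum_congr rfl fun n hn => h n (Finset.mem_Icc.1 hn).1

lemma Cs_meas (a : ℕ → ℂ) : Measurable (Cs a) := by
  have e : Cs a = (fun n : ℕ => ∑ k ∈ Finset.Icc 1 n, a k) ∘ fun v : ℝ => ⌊Real.exp v⌋₊ := rfl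
  rw [e]
  exact (measurable_of_countable _).comp (Nat.measurable_floor.comp Real.measurable_exp)

lemma Cs_le (a : ℕ → ℂ) {v V : ℝ} (h : v ≤ V) : ‖Cs a v‖ ≤ ∑ n ∈ Finset.Icc 1 ⌊Real.exp V⌋₊, ‖a n‖ := by
  unfold Cs
  refine (norm_sum_le _ _).trans ?_
  refine Finset.sum_le_sum_of_subset_of_nonneg ?_ fun _ _ _ => norm_nonneg _
  exact Finset.Icc_subset_Icc_right (Nat.floor_le_floor (Real.exp_le_exp.2 h))

lemma Cs_eq (a : ℕ → ℂ) {v w : ℝ} (h : w ≤ v) :
    Cs a w = ∑ n ∈ Finset.Icc 1 ⌊Real.exp v⌋₊, if Real.log n ≤ w then a n else 0 := by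
  unfold Cs
  rw [← Finset.sum_filter]
  apply Finset.sum_congr _ fun _ _ => rfl
  ext n
  simp only [Finset.mem_filter, Finset.mem_Icc]
  constructor
  · rintro ⟨h1, h2⟩
    have h3 : (n : ℝ) ≤ Real.exp w := (Nat.le_floor_iff (Real.exp_pos w).le).1 h2
    refine ⟨⟨h1, Nat.le_floor (h3.trans (Real.exp_le_exp.2 h))⟩, ?_⟩
    rw [Real.log_le_iff_le_exp (by exact_mod_cast h1)]
    exact h3
  · rintro ⟨⟨h1, _⟩, h3⟩
    rw [Real.log_le_iff_le_exp (by exact_mod_cast h1)] at h3
    exact ⟨h1, Nat.le_floor h3⟩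

/-- Abel summation from `v0` on -/
lemma abelC (a : ℕ → ℂ) {φ ψ : ℝ → ℂ} {v0 v : ℝ} (hv : v0 ≤ v)
    (hψ : ∀ x y : ℝ, v0 ≤ x → v0 ≤ y → IntervalIntegrable ψ volume x y)
    (hφ : ∀ x y : ℝ, v0 ≤ x → x ≤ y → ∫ w in x..y, ψ w = φ y - φ x) :
    Cs (fun n => a n * φ (Real.log n)) v - Cs (fun n => a n * φ (Real.log n)) v0 =
      φ v * Cs a v - φ v0 * Cs a v0 - ∫ w in v0..v, Cs a w * ψ w := by
  have hii : ∀ L : ℝ, IntervalIntegrable (fun w : ℝ => if L ≤ w then ψ w else 0) volume v0 v := by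
    intro L
    have h1 := hψ v0 v le_rfl hv
    rw [intervalIntegrable_iff] at h1 ⊢
    have h2 : (fun w : ℝ => if L ≤ w then ψ w else 0) = (Ici L).indicator ψ := by
      funext w
      by_cases h : L ≤ w
      · rw [if_pos h, Set.indicator_of_mem (show w ∈ Ici L from h)]
      · rw [if_neg h, Set.indicator_of_notMem (show w ∉ Ici L from h)]
    rw [h2]
    exact h1.indicator measurableSet_Ici
  -- the integral of one term
  have h0 : ∀ L : ℝ, L ≤ v → ∫ w in v0..v, (if L ≤ w then ψ w else 0) = φ v - φ (max L v0) := by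
    intro L hL
    have hm : max L v0 ≤ v := max_le hL hv
    rw [← hφ (max L v0) v (le_max_right _ _) hm]
    have hi2 : IntervalIntegrable (fun w : ℝ => if L ≤ w then ψ w else 0) volume v0 (max L v0) :=
      (hii L).mono_set (by
        rw [uIcc_of_le (le_max_right _ _), uIcc_of_le hv]
        exact Icc_subset_Icc_right hm)
    have hi3 : IntervalIntegrable (fun w : ℝ => if L ≤ w then ψ w else 0) volume (max L v0) v :=
      (hii L).mono_set (by
        rw [uIcc_of_le hm, uIcc_of_le hv]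
        exact Icc_subset_Icc_left (le_max_right _ _))
    rw [← intervalIntegral.integral_add_adjacent_intervals hi2 hi3]
    have h1 : ∫ w in v0..(max L v0), (if L ≤ w then ψ w else 0) = 0 := by
      rw [intervalIntegral.integral_of_le (le_max_right _ _), integral_Ioc_eq_integral_Ioo]
      have : ∀ w ∈ Ioo v0 (max L v0), (if L ≤ w then ψ w else 0) = 0 := by
        intro w hw
        have h2 : w < L := by
          rcases lt_max_iff.1 hw.2 with h3 | h3
          · exact h3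
          · exact absurd h3 (not_lt.2 hw.1.le)
        rw [if_neg (not_le.2 h2)]
      rw [setIntegral_congr_fun measurableSet_Ioo this]
      simp
    rw [h1, zero_add]
    apply intervalIntegral.integral_congr
    intro w hw
    rw [uIcc_of_le hm] at hw
    simp only
    rw [if_pos ((le_max_left _ _).trans hw.1)]
  have h1 : ∫ w in v0..v, Cs a w * ψ w =
      ∑ n ∈ Finset.Icc 1 ⌊Real.exp v⌋₊, a n * ∫ w in v0..v, if Real.log n ≤ w then ψ w else 0 := by
    have e1 : ∫ w in v0..v, Cs a w * ψ w = ∫ w in v0..v,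
        ∑ n ∈ Finset.Icc 1 ⌊Real.exp v⌋₊, a n * (if Real.log n ≤ w then ψ w else 0) := by
      apply intervalIntegral.integral_congr
      intro w hw
      rw [uIcc_of_le hv] at hw
      simp only
      rw [Cs_eq a hw.2, Finset.sum_mul]
      refine Finset.sum_congr rfl fun n _ => ?_
      split_ifs <;> ring
    rw [e1, intervalIntegral.integral_finsetSum]
    · refine Finset.sum_congr rfl fun n _ => ?_
      rw [intervalIntegral.integral_const_mul]
    · intro n hn
      exact (hii _).const_mul _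
  rw [h1, Cs_eq a hv, Cs_eq (fun n => a n * φ (Real.log n)) hv]
  unfold Cs
  rw [Finset.mul_sum, Finset.mul_sum, ← Finset.sum_sub_distrib, ← Finset.sum_sub_distrib, ← Finset.sum_sub_distrib]
  refine Finset.sum_congr rfl fun n hn => ?_
  have hlog : Real.log n ≤ v := by
    rw [Finset.mem_Icc] at hn
    rw [Real.log_le_iff_le_exp (by exact_mod_cast hn.1)]
    exact (Nat.le_floor_iff (Real.exp_pos v).le).1 hn.2
  rw [h0 _ hlog]
  by_cases h : Real.log n ≤ v0
  · rw [if_pos h, if_pos h, max_eq_right h]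
    ring
  · rw [if_neg h, if_neg h, max_eq_left (not_le.1 h).le]
    ring

/-! ## the functions attached to a sum -/

/-- `e^{cv} ∑_{n ≤ e^v} a(n)` -/
noncomputable def gc (a : ℕ → ℂ) (c : ℂ) (v : ℝ) : ℂ := Cs a v * Complex.exp (c * v)

lemma norm_exp_c (c : ℂ) (v : ℝ) : ‖Complex.exp (c * v)‖ = Real.exp (c.re * v) := by
  rw [Complex.norm_exp, Complex.re_mul_ofReal]

lemma gc_ad (a : ℕ → ℂ) (c : ℂ) : Ad (gc a c) := by
  refine ⟨(Cs_meas a).mul (by fun_prop), fun v hv => by unfold gc; rw [Cs_neg a hv, zero_mul], fun V => ?_⟩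
  refine ⟨(∑ n ∈ Finset.Icc 1 ⌊Real.exp V⌋₊, ‖a n‖) * Real.exp (|c.re| * |V|), by positivity, fun v hv => ?_⟩
  unfold gc
  rw [norm_mul, norm_exp_c]
  rcases lt_or_ge v 0 with h | h
  · rw [Cs_neg a h, norm_zero, zero_mul]
    positivity
  · apply mul_le_mul (Cs_le a hv) _ (Real.exp_pos _).le (by positivity)
    apply Real.exp_le_exp.2
    have h1 : c.re * v ≤ |c.re| * |v| := by
      rw [← abs_mul]
      exact le_abs_self _
    have h2 : |v| ≤ |V| := by
      rw [abs_of_nonneg h, abs_of_nonneg (h.trans hv)]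
      exact hv
    exact h1.trans (mul_le_mul_of_nonneg_left h2 (abs_nonneg _))

/-! ## the exponential kernel with a complex exponent -/

/-- `∫_0^v F(w) e^{-β(v-w)} dw` -/
noncomputable def ekc (β : ℂ) (F : ℝ → ℂ) (v : ℝ) : ℂ :=
  if v < 0 then 0 else Complex.exp (-(β * v)) * ∫ w in (0:ℝ)..v, F w * Complex.exp (β * w)

/-- modulation -/
noncomputable def md (τ : ℝ) (F : ℝ → ℂ) (v : ℝ) : ℂ := F v * Complex.exp ((τ * Complex.I) * v)

lemma norm_ei (τ v : ℝ) : ‖Complex.exp ((τ * Complex.I) * v)‖ = 1 := by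
  rw [norm_exp_c]
  simp

lemma norm_md (τ : ℝ) (F : ℝ → ℂ) (v : ℝ) : ‖md τ F v‖ = ‖F v‖ := by
  unfold md
  rw [norm_mul, norm_ei, mul_one]

lemma md_ad (τ : ℝ) {F : ℝ → ℂ} (hF : Ad F) : Ad (md τ F) := by
  refine ⟨hF.meas.mul (by fun_prop), fun v hv => by unfold md; rw [hF.neg v hv, zero_mul], fun V => ?_⟩
  obtain ⟨B, hB0, hB⟩ := hF.bdd V
  exact ⟨B, hB0, fun v hv => by rw [norm_md]; exact hB v hv⟩

lemma IQ_md (τ : ℝ) (F : ℝ → ℂ) (V : ℝ) : IQ (md τ F) V = IQ F V := by
  unfold IQ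
  apply intervalIntegral.integral_congr
  intro v _
  simp only
  rw [norm_md]

lemma ekc_eq (β : ℂ) (F : ℝ → ℂ) : ekc β F = md (-β.im) (ek β.re (md β.im F)) := by
  funext v
  unfold ekc md ek
  split_ifs with h
  · rw [zero_mul]
  · have h1 : ∀ w : ℝ, F w * Complex.exp (((β.im : ℝ) : ℂ) * Complex.I * w) * Complex.exp (((β.re : ℝ) : ℂ) * w) =
        F w * Complex.exp (β * w) := by
      intro w
      rw [mul_assoc, ← Complex.exp_add]
      congr 2
      conv_rhs => rw [← Complex.re_add_im β]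
      ring
    simp only [h1]
    rw [mul_right_comm, ← Complex.exp_add]
    congr 2
    conv_lhs => rw [← Complex.re_add_im β]
    push_cast
    ring

lemma E_md {ρ : ℂ} (τ : ℝ) : md τ (E ρ) = E (ρ + τ * Complex.I) := by
  funext v
  unfold md E
  split_ifs with h
  · rw [zero_mul]
  · unfold Pool.Agent.H295R2.ee
    rw [← Complex.exp_add]
    congr 1
    ring

lemma ekc_op {β : ℂ} (hβ : 0 < β.re) : Op (ekc β) (fun ρ => 1 / (ρ - 1 / 2 + β)) := by
  have h := ek_op hβ
  refine ⟨fun F hF => ?_, fun F G hF hG => ?_, fun F hF c => ?_, ?_, fun ρ hρ => ?_, ?_⟩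
  · rw [ekc_eq]
    exact md_ad _ (h.ad _ (md_ad _ hF))
  · rw [ekc_eq, ekc_eq, ekc_eq]
    have h1 : md β.im (fun v => F v + G v) = fun v => md β.im F v + md β.im G v := by
      funext v
      unfold md
      ring
    rw [h1, h.add _ _ (md_ad _ hF) (md_ad _ hG)]
    funext v
    unfold md
    ring
  · rw [ekc_eq, ekc_eq]
    have h1 : md β.im (fun v => c * F v) = fun v => c * md β.im F v := by
      funext v
      unfold md
      ring
    rw [h1, h.smul _ (md_ad _ hF)]
    funext v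
    unfold md
    ring
  · obtain ⟨K, hK, hKb⟩ := h.bd
    refine ⟨K, hK, fun F hF V hV => ?_⟩
    rw [ekc_eq, IQ_md]
    have := hKb _ (md_ad β.im hF) V hV
    rwa [IQ_md] at this
  · have hρ' : (ρ + (β.im : ℂ) * Complex.I).re = 1 / 2 := by
      simp [hρ]
    have h1 := h.ev _ hρ'
    have h2 : (fun v => ekc β (E ρ) v - 1 / (ρ - 1 / 2 + β) * E ρ v) =
        md (-β.im) (fun v => ek β.re (E (ρ + (β.im : ℂ) * Complex.I)) v -
          1 / ((ρ + (β.im : ℂ) * Complex.I) - 1 / 2 + (β.re : ℂ)) * E (ρ + (β.im : ℂ) * Complex.I) v) := by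
      have e1 : E ρ = md (-β.im) (E (ρ + (β.im : ℂ) * Complex.I)) := by
        rw [E_md]
        congr 1
        push_cast
        ring
      have e2 : (ρ + (β.im : ℂ) * Complex.I) - 1 / 2 + (β.re : ℂ) = ρ - 1 / 2 + β := by
        conv_rhs => rw [← Complex.re_add_im β]
        ring
      rw [ekc_eq, E_md, e2]
      funext v
      conv_lhs => rw [e1]
      unfold md
      ring
    rw [h2]
    unfold Z0
    simp_rw [IQ_md]
    exact h1
  · refine ⟨1 / β.re, fun ρ hρ => ?_⟩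
    rw [norm_div, norm_one]
    apply one_div_le_one_div_of_le hβ
    have h1 := Complex.re_le_norm (ρ - 1 / 2 + β)
    have h2 : (ρ - 1 / 2 + β).re = β.re := by
      simp [hρ]
    rwa [h2] at h1

/-- `F + c · ekc β F` -/
noncomputable def woc (c β : ℂ) (F : ℝ → ℂ) (v : ℝ) : ℂ := F v + c * ekc β F v

lemma woc_op (c : ℂ) {β : ℂ} (hβ : 0 < β.re) : Op (woc c β) (fun ρ => 1 + c * (1 / (ρ - 1 / 2 + β))) := by
  have h := Op.one.lin (ekc_op hβ) 1 c
  have e1 : (fun (F : ℝ → ℂ) v => (1:ℂ) * F v + c * ekc β F v) = woc c β := by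
    funext F v
    unfold woc
    ring
  have e2 : (fun ρ : ℂ => (1:ℂ) * 1 + c * (1 / (ρ - 1 / 2 + β))) = fun ρ => 1 + c * (1 / (ρ - 1 / 2 + β)) := by
    funext ρ
    ring
  rw [e1, e2] at h
  exact h

lemma exp_deriv (κ : ℂ) (w : ℝ) : HasDerivAt (fun w : ℝ => Complex.exp (κ * w)) (κ * Complex.exp (κ * w)) w := by
  have h1 : HasDerivAt (fun w : ℝ => κ * (w : ℂ)) (κ * 1) w :=
    (Complex.ofRealCLM.hasDerivAt (x := w)).const_mul κ
  have h2 := h1.cexp
  rw [mul_one, mul_comm] at h2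
  exact h2

lemma gc_weight (a : ℕ → ℂ) (κ c : ℂ) :
    gc (fun n => a n * Complex.exp (κ * Real.log n)) (c - κ) = woc (-κ) (κ - c) (gc a c) := by
  funext v
  unfold woc
  rcases lt_or_ge v 0 with h | h
  · unfold gc ekc
    rw [Cs_neg _ h, Cs_neg _ h, if_pos h]
    simp
  · have hc : Continuous (fun w : ℝ => κ * Complex.exp (κ * w)) := by fun_prop
    have h1 := abelC a (φ := fun w => Complex.exp (κ * w)) (ψ := fun w => κ * Complex.exp (κ * w)) h
      (fun x y _ _ => hc.intervalIntegrable x y)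
      (fun x y _ _ => intervalIntegral.integral_eq_sub_of_hasDerivAt (fun w _ => exp_deriv κ w)
        (hc.intervalIntegrable x y))
    have e0 : Cs (fun n => a n * Complex.exp (κ * Real.log n)) 0 = Cs a 0 := by
      unfold Cs
      simp
    rw [e0] at h1
    have h2 : Cs (fun n => a n * Complex.exp (κ * Real.log n)) v =
        Complex.exp (κ * v) * Cs a v - ∫ w in (0:ℝ)..v, Cs a w * (κ * Complex.exp (κ * w)) := by
      have h3 : Complex.exp (κ * ((0:ℝ) : ℂ)) = 1 := by simp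
      rw [h3] at h1
      linear_combination h1
    have h3 : ∫ w in (0:ℝ)..v, Cs a w * (κ * Complex.exp (κ * w)) =
        κ * ∫ w in (0:ℝ)..v, gc a c w * Complex.exp ((κ - c) * w) := by
      rw [← intervalIntegral.integral_const_mul]
      apply intervalIntegral.integral_congr
      intro w _
      simp only
      unfold gc
      have : Complex.exp (κ * w) = Complex.exp (c * w) * Complex.exp ((κ - c) * w) := by
        rw [← Complex.exp_add]
        congr 1
        ring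
      rw [this]
      ring
    unfold ekc
    rw [if_neg (not_lt.2 h)]
    obtain ⟨J, hJ⟩ : ∃ J : ℂ, J = ∫ w in (0:ℝ)..v, gc a c w * Complex.exp ((κ - c) * w) := ⟨_, rfl⟩
    rw [← hJ] at h3 ⊢
    unfold gc
    rw [h2, h3]
    have e1 : Complex.exp (κ * v) * Complex.exp ((c - κ) * v) = Complex.exp (c * v) := by
      rw [← Complex.exp_add]
      congr 1
      ring
    have e2 : Complex.exp (-((κ - c) * v)) = Complex.exp ((c - κ) * v) := by
      congr 1
      ring
    rw [e2, ← e1]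
    ring

/-- `μ(n) n^(-κ)`, restricted to `n` without prime factors in `P` -/
noncomputable def bC (P : Finset ℕ) (κ : ℂ) (n : ℕ) : ℂ := (muP P n : ℂ) * Complex.exp (-κ * Real.log n)

/-- the multiplier -/
noncomputable def mC (P : Finset ℕ) (κ ρ : ℂ) : ℂ := (1 + κ * (1 / (ρ - 1 / 2 + (1 / 2 - κ)))) * eP P ρ

lemma facC {κ ρ : ℂ} (hκ : κ.re < 1 / 2) (hρ : ρ.re = 1 / 2) :
    1 + κ * (1 / (ρ - 1 / 2 + (1 / 2 - κ))) = ρ / (ρ - κ) := by
  have h0 : ρ - κ ≠ 0 := by
    intro h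
    have := congrArg Complex.re h
    simp [hρ] at this
    linarith
  have h1 : ρ - 1 / 2 + (1 / 2 - κ) = ρ - κ := by ring
  rw [h1]
  field_simp
  ring

lemma gc_base (P : Finset ℕ) : gc (fun n => (muP P n : ℂ)) (-(1 / 2)) = gf (muP P) (-(1 / 2)) := by
  funext v
  unfold gc gf Cs Ms
  push_cast
  ring

theorem good_c (P : Finset ℕ) (hP : ∀ p ∈ P, p.Prime) {κ : ℂ} (hκ : κ.re < 1 / 2) :
    Good (gc (bC P κ) (κ - 1 / 2)) (mC P κ) := by
  have h0 := good_P P hP
  rw [← gc_base] at h0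
  have e1 : gc (bC P κ) (κ - 1 / 2) = woc κ (1 / 2 - κ) (gc (fun n => (muP P n : ℂ)) (-(1 / 2))) := by
    have h1 := gc_weight (fun n => (muP P n : ℂ)) (-κ) (-(1 / 2))
    have h2 : -(1 / 2) - -κ = κ - 1 / 2 := by ring
    have h3 : -κ - -(1 / 2) = 1 / 2 - κ := by ring
    rw [h2, h3, neg_neg] at h1
    rw [← h1]
    rfl
  have e2 : gc (fun n => (muP P n : ℂ)) (-(1 / 2)) = woc (-κ) (1 / 2) (gc (bC P κ) (κ - 1 / 2)) := by
    have h1 := gc_weight (bC P κ) κ (κ - 1 / 2)
    have h2 : κ - 1 / 2 - κ = -(1 / 2) := by ring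
    have h3 : κ - (κ - 1 / 2) = 1 / 2 := by ring
    rw [h2, h3] at h1
    rw [← h1]
    congr 1
    funext n
    unfold bC
    rw [mul_assoc, ← Complex.exp_add]
    have : -κ * (Real.log n : ℂ) + κ * (Real.log n : ℂ) = 0 := by ring
    rw [this, Complex.exp_zero, mul_one]
  have hm : mC P κ = fun ρ => (1 + κ * (1 / (ρ - 1 / 2 + (1 / 2 - κ)))) * eP P ρ := rfl
  rw [e1, hm]
  refine h0.step (woc_op κ (β := 1 / 2 - κ) ?_) (woc_op (-κ) (β := 1 / 2) ?_) ?_ ?_
  · simp
    linarith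
  · norm_num
  · rw [← e1, ← e2]
  · intro ρ hρ
    rw [facC hκ hρ]
    apply div_ne_zero
    · rintro rfl
      simp at hρ
    · intro h0
      have := congrArg Complex.re h0
      simp [hρ] at this
      linarith

end Pool.Agent.U736.WR
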