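import Pool.Agent.U736.WR.A1

set_option autoImplicit false

/-! # Small perturbations in the mean square -/

namespace Pool.Agent.U736.WR

open MeasureTheory Filter Topology Set
open Pool.Agent.W120.WM (ZC NT)
open Pool.Agent.R305.FM (Ad fC fC_ad Ad.sub Ad.int_sq)
open Pool.Agent.R613.WM

lemma IQ_le {F G : ℝ → ℂ} (hF : Ad F) (hG : Ad G) {V : ℝ} (hV : 0 ≤ V) {K : ℝ}
    (h : ∀ v ∈ Icc (0:ℝ) V, ‖F v‖ ≤ K * ‖G v‖) : IQ F V ≤ K ^ 2 * IQ G V := by
  unfold IQ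
  rw [← intervalIntegral.integral_const_mul]
  refine intervalIntegral.integral_mono_on hV (hF.int_sq 0 V) ((hG.int_sq 0 V).const_mul _) fun v hv => ?_
  rw [← mul_pow]
  exact pow_le_pow_left₀ (norm_nonneg _) (h v hv) 2

lemma IQ_diff {F G : ℝ → ℂ} (hF : Ad F) (hG : Ad G) {V : ℝ} (hV : 0 ≤ V) {η : ℝ} (hη : 0 < η) :
    |IQ G V - IQ F V| ≤ (1 + 1 / η) * IQ (fun v => G v - F v) V + η * IQ F V := by
  have iT : IntervalIntegrable (fun v => ‖F v‖ ^ 2) volume 0 V := hF.int_sq 0 V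
  have ih : IntervalIntegrable (fun v => ‖G v‖ ^ 2) volume 0 V := hG.int_sq 0 V
  have id : IntervalIntegrable (fun v => ‖G v - F v‖ ^ 2) volume 0 V := (hG.sub hF).int_sq 0 V
  have e1 : IQ G V - IQ F V = ∫ v in (0:ℝ)..V, (‖G v‖ ^ 2 - ‖F v‖ ^ 2) := by
    rw [intervalIntegral.integral_sub ih iT]
    rfl
  have e2 : |∫ v in (0:ℝ)..V, (‖G v‖ ^ 2 - ‖F v‖ ^ 2)| ≤
      ∫ v in (0:ℝ)..V, ((1 + 1 / η) * ‖G v - F v‖ ^ 2 + η * ‖F v‖ ^ 2) := by
    refine (intervalIntegral.abs_integral_le_integral_abs hV).trans ?_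
    refine intervalIntegral.integral_mono_on hV (ih.sub iT).abs
      ((id.const_mul _).add (iT.const_mul _)) fun v _ => ?_
    have f1 := abs_norm_sub_norm_le (G v) (F v)
    have f2 := norm_nonneg (G v - F v)
    have f3 := norm_nonneg (G v)
    have f4 := norm_nonneg (F v)
    have f5 : |‖G v‖ ^ 2 - ‖F v‖ ^ 2| = |‖G v‖ - ‖F v‖| * (‖G v‖ + ‖F v‖) := by
      rw [show ‖G v‖ ^ 2 - ‖F v‖ ^ 2 = (‖G v‖ - ‖F v‖) * (‖G v‖ + ‖F v‖) by ring, abs_mul,
        abs_of_nonneg (by positivity : 0 ≤ ‖G v‖ + ‖F v‖)]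
    have f6 : ‖G v‖ ≤ ‖G v - F v‖ + ‖F v‖ := by
      have := (le_abs_self _).trans f1
      linarith
    rw [f5]
    have f7 : |‖G v‖ - ‖F v‖| * (‖G v‖ + ‖F v‖) ≤ ‖G v - F v‖ * (‖G v - F v‖ + 2 * ‖F v‖) :=
      mul_le_mul f1 (by linarith) (by positivity) f2
    refine f7.trans ?_
    have f8 : 2 * ‖G v - F v‖ * ‖F v‖ ≤ 1 / η * ‖G v - F v‖ ^ 2 + η * ‖F v‖ ^ 2 := by
      have : 0 ≤ 1 / η * (‖G v - F v‖ - η * ‖F v‖) ^ 2 := by positivity
      have f9 : 1 / η * (‖G v - F v‖ - η * ‖F v‖) ^ 2 =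
          1 / η * ‖G v - F v‖ ^ 2 - 2 * ‖G v - F v‖ * ‖F v‖ + η * ‖F v‖ ^ 2 := by
        field_simp
        ring
      linarith
    nlinarith
  rw [intervalIntegral.integral_add (id.const_mul _) (iT.const_mul _), intervalIntegral.integral_const_mul,
    intervalIntegral.integral_const_mul] at e2
  rw [e1]
  exact e2

/-- `G` differs from `F` by functions of small mean square -/
structure Near (F G : ℝ → ℂ) : Prop where
  hF : Ad F
  hG : Ad G
  near : ∀ δ : ℝ, 0 < δ → ∃ D : ℝ → ℂ, Ad D ∧ Z0 D ∧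
    ∀ V : ℝ, 0 ≤ V → IQ (fun v => G v - F v) V ≤ δ * IQ F V + 2 * IQ D V

namespace Near

variable {F G : ℝ → ℂ}

lemma z0 (h : Near F G) {S : ℝ} (hS : Tendsto (fun V : ℝ => IQ F V / V) atTop (𝓝 S)) :
    Z0 (fun v => G v - F v) := by
  unfold Z0
  rw [Metric.tendsto_nhds]
  intro ε hε
  obtain ⟨δ, hδ⟩ : ∃ δ : ℝ, δ = ε / (2 * (|S| + 1)) := ⟨_, rfl⟩
  have hδ0 : 0 < δ := by rw [hδ]; positivity
  have hδ1 : δ * (|S| + 1) = ε / 2 := by rw [hδ]; field_simp
  obtain ⟨D, hD, hD0, hDb⟩ := h.near δ hδ0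
  have ev1 := hS.eventually (gt_mem_nhds (lt_add_one S))
  have ev2 := (show Tendsto (fun V : ℝ => IQ D V / V) atTop (𝓝 0) from hD0).eventually
    (gt_mem_nhds (show (0:ℝ) < ε / 8 by positivity))
  filter_upwards [ev1, ev2, eventually_gt_atTop (0:ℝ)] with V h1 h2 hV
  rw [Real.dist_eq, sub_zero, abs_of_nonneg (div_nonneg (IQ_nonneg _ hV.le) hV.le)]
  have h3 := hDb V hV.le
  have h4 : IQ (fun v => G v - F v) V / V ≤ δ * (IQ F V / V) + 2 * (IQ D V / V) := by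
    rw [div_le_iff₀ hV]
    refine h3.trans (le_of_eq ?_)
    field_simp
  have h5 : IQ F V / V ≤ |S| + 1 := h1.le.trans (by linarith [le_abs_self S])
  have h6 : δ * (IQ F V / V) ≤ δ * (|S| + 1) := by gcongr
  linarith

theorem fin (h : Near F G) {S : ℝ} (hS : Tendsto (fun V : ℝ => IQ F V / V) atTop (𝓝 S)) :
    Tendsto (fun V : ℝ => IQ G V / V) atTop (𝓝 S) := by
  have h0 := h.z0 hS
  rw [Metric.tendsto_nhds]
  intro ε hε
  obtain ⟨η, hη⟩ : ∃ η : ℝ, η = ε / (4 * (|S| + 1)) := ⟨_, rfl⟩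
  have hη0 : 0 < η := by rw [hη]; positivity
  have hη1 : η * (|S| + 1) = ε / 4 := by rw [hη]; field_simp
  have ev1 := hS.eventually (gt_mem_nhds (lt_add_one S))
  have ev2 := (show Tendsto (fun V : ℝ => IQ (fun v => G v - F v) V / V) atTop (𝓝 0) from h0).eventually
    (gt_mem_nhds (show (0:ℝ) < ε / (4 * (1 + 1 / η)) by positivity))
  have ev3 := Metric.tendsto_nhds.1 hS (ε / 4) (by positivity)
  filter_upwards [ev1, ev2, ev3, eventually_gt_atTop (0:ℝ)] with V h1 h2 h3 hV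
  rw [Real.dist_eq] at h3 ⊢
  have h4 := IQ_diff h.hF h.hG hV.le hη0
  have h5 : |IQ G V / V - IQ F V / V| ≤ (1 + 1 / η) * (IQ (fun v => G v - F v) V / V) + η * (IQ F V / V) := by
    rw [← sub_div, abs_div, abs_of_pos hV, div_le_iff₀ hV]
    refine h4.trans (le_of_eq ?_)
    field_simp
  have h6 : IQ F V / V ≤ |S| + 1 := h1.le.trans (by linarith [le_abs_self S])
  have h7 : η * (IQ F V / V) ≤ η * (|S| + 1) := by gcongr
  have h8 : (1 + 1 / η) * (IQ (fun v => G v - F v) V / V) ≤ (1 + 1 / η) * (ε / (4 * (1 + 1 / η))) := by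
    gcongr
  have h9 : (1 + 1 / η) * (ε / (4 * (1 + 1 / η))) = ε / 4 := by
    have : 0 < 1 + 1 / η := by positivity
    field_simp
  have h10 : |IQ G V / V - S| ≤ |IQ G V / V - IQ F V / V| + |IQ F V / V - S| := abs_sub_le _ _ _
  linarith

theorem top (h : Near F G) (hS : Tendsto (fun V : ℝ => IQ F V / V) atTop atTop) :
    Tendsto (fun V : ℝ => IQ G V / V) atTop atTop := by
  obtain ⟨D, hD, hD0, hDb⟩ := h.near (1 / 4) (by norm_num)
  have h1 : Tendsto (fun V : ℝ => 1 / 4 * (IQ F V / V)) atTop atTop := hS.const_mul_atTop (by norm_num)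
  have h2 : Tendsto (fun V : ℝ => -2 * (IQ D V / V)) atTop (𝓝 (-2 * 0)) :=
    (show Tendsto (fun V : ℝ => IQ D V / V) atTop (𝓝 0) from hD0).const_mul (-2)
  refine tendsto_atTop_mono' atTop ?_ (h1.atTop_add h2)
  filter_upwards [eventually_gt_atTop (0:ℝ)] with V hV
  have h3 := hDb V hV.le
  have h4 := IQ_sub h.hG (h.hG.sub h.hF) hV.le
  have h5 : (fun v => G v - (G v - F v)) = F := by
    funext v
    ring
  rw [h5] at h4
  have h6 : 1 / 4 * IQ F V - 2 * IQ D V ≤ IQ G V := by linarith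
  calc 1 / 4 * (IQ F V / V) + -2 * (IQ D V / V) = (1 / 4 * IQ F V - 2 * IQ D V) / V := by ring
    _ ≤ IQ G V / V := by gcongr

end Near

/-- a factor that tends to `1` -/
theorem near_mul {F G : ℝ → ℂ} (hF : Ad F) (hG : Ad G)
    (h : ∀ ε : ℝ, 0 < ε → ∀ᶠ v : ℝ in atTop, ‖G v - F v‖ ≤ ε * ‖F v‖) : Near F G := by
  refine ⟨hF, hG, fun δ hδ => ?_⟩
  obtain ⟨m, hm⟩ : ∃ m : ℝ, m = min 1 (δ / 2) := ⟨_, rfl⟩
  have hm0 : 0 < m := by rw [hm]; exact lt_min one_pos (by positivity)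
  have hm1 : m ≤ 1 := by rw [hm]; exact min_le_left _ _
  have hm2 : m ≤ δ / 2 := by rw [hm]; exact min_le_right _ _
  obtain ⟨x, hx⟩ := eventually_atTop.1 (h m hm0)
  obtain ⟨v1, hv1⟩ : ∃ v1 : ℝ, v1 = max x 0 := ⟨_, rfl⟩
  have hv10 : 0 ≤ v1 := by rw [hv1]; exact le_max_right _ _
  have hxv1 : x ≤ v1 := by rw [hv1]; exact le_max_left _ _
  have hGF := hG.sub hF
  obtain ⟨D, hDdef⟩ : ∃ D : ℝ → ℂ, D = fun v => if v < v1 then G v - F v else 0 := ⟨_, rfl⟩
  have hD : Ad D := by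
    refine ⟨?_, fun v hv => ?_, fun V => ?_⟩
    · rw [hDdef]
      exact Measurable.ite measurableSet_Iio hGF.meas measurable_const
    · rw [hDdef]
      simp only
      rw [if_pos (by linarith), hG.neg v hv, hF.neg v hv, sub_zero]
    · obtain ⟨B, hB0, hB⟩ := hGF.bdd V
      refine ⟨B, hB0, fun v hv => ?_⟩
      rw [hDdef]
      simp only
      split_ifs
      · exact hB v hv
      · rw [norm_zero]
        exact hB0
  have hD0 : Z0 D := by
    refine Z0.of_tendsto hD (tendsto_const_nhds.congr' ?_)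
    filter_upwards [eventually_ge_atTop v1] with v hv
    rw [hDdef]
    simp only
    rw [if_neg (not_lt.2 hv)]
  have hR := hGF.sub hD
  refine ⟨D, hD, hD0, fun V hV => ?_⟩
  have h1 : IQ (fun v => (G v - F v) - D v) V ≤ m ^ 2 * IQ F V := by
    refine IQ_le hR hF hV fun v _ => ?_
    rw [hDdef]
    simp only
    split_ifs with h2
    · rw [sub_self, norm_zero]
      positivity
    · rw [sub_zero]
      exact hx v (hxv1.trans (not_lt.1 h2))
  have h2 := IQ_add hD hR hV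
  have h3 : (fun v => D v + ((G v - F v) - D v)) = fun v => G v - F v := by
    funext v
    ring
  rw [h3] at h2
  have h4 : 0 ≤ IQ F V := IQ_nonneg _ hV
  have h8 : m ^ 2 ≤ δ / 2 := by nlinarith
  have h9 : m ^ 2 * IQ F V ≤ δ / 2 * IQ F V := by gcongr
  linarith

/-! ## slowly varying weights -/

lemma ratio {φ ψ : ℝ → ℂ} {v1 ε : ℝ} (hφc : ContinuousOn φ (Ici v1))
    (hd : ∀ v : ℝ, v1 ≤ v → HasDerivWithinAt φ (ψ v) (Ici v) v) (hne : ∀ v : ℝ, v1 ≤ v → φ v ≠ 0)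
    (hb : ∀ v : ℝ, v1 ≤ v → ‖ψ v‖ ≤ ε * ‖φ v‖) {w v : ℝ} (hw : v1 ≤ w) (hwv : w ≤ v) :
    ‖φ w‖ ≤ ‖φ v‖ * Real.exp (ε * (v - w)) := by
  have h1 := norm_le_gronwallBound_of_norm_deriv_right_le (f := fun s => (φ s)⁻¹)
    (f' := fun s => -ψ s / φ s ^ 2) (δ := ‖(φ w)⁻¹‖) (K := ε) (ε := 0) (a := w) (b := v)
    (by
      apply ContinuousOn.inv₀
      · exact hφc.mono fun s hs => hw.trans hs.1
      · intro s hs
        exact hne s (hw.trans hs.1))
    (fun s hs => (hd s (hw.trans hs.1)).fun_inv (hne s (hw.trans hs.1)))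
    le_rfl
    (fun s hs => by
      have h2 := hb s (hw.trans hs.1)
      have h3 : 0 < ‖φ s‖ := norm_pos_iff.2 (hne s (hw.trans hs.1))
      rw [norm_div, norm_neg, norm_pow, norm_inv, add_zero, div_le_iff₀ (by positivity)]
      refine h2.trans (le_of_eq ?_)
      field_simp)
    v ⟨hwv, le_rfl⟩
  rw [gronwallBound_ε0, norm_inv, norm_inv] at h1
  have h2 : 0 < ‖φ w‖ := norm_pos_iff.2 (hne w hw)
  have h3 : 0 < ‖φ v‖ := norm_pos_iff.2 (hne v (hw.trans hwv))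
  rw [inv_mul_eq_div, le_div_iff₀ h2, inv_mul_le_iff₀ h3] at h1
  exact h1

lemma norm_ek {F : ℝ → ℂ} (β : ℝ) {v : ℝ} (hv : 0 ≤ v) :
    ‖ek β (fun w => ((‖F w‖ : ℝ) : ℂ)) v‖ =
      Real.exp (-(β * v)) * ∫ w in (0:ℝ)..v, ‖F w‖ * Real.exp (β * w) := by
  unfold ek
  rw [if_neg (not_lt.2 hv), norm_mul, norm_exp_neg_mul_real]
  congr 1
  have h1 : ∫ w in (0:ℝ)..v, ((‖F w‖ : ℝ) : ℂ) * Complex.exp (β * w) =
      ((∫ w in (0:ℝ)..v, ‖F w‖ * Real.exp (β * w) : ℝ) : ℂ) := by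
    rw [← intervalIntegral.integral_ofReal]
    apply intervalIntegral.integral_congr
    intro w _
    simp only
    push_cast
    ring
  rw [h1, Complex.norm_real, Real.norm_of_nonneg]
  exact intervalIntegral.integral_nonneg hv fun w _ => by positivity

lemma nF_ad {F : ℝ → ℂ} (hF : Ad F) : Ad (fun w => ((‖F w‖ : ℝ) : ℂ)) := by
  refine ⟨Complex.measurable_ofReal.comp hF.meas.norm, fun v hv => by rw [hF.neg v hv]; simp, fun V => ?_⟩
  obtain ⟨B, hB0, hB⟩ := hF.bdd V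
  exact ⟨B, hB0, fun v hv => by rw [Complex.norm_real, norm_norm]; exact hB v hv⟩

lemma IQ_nF (F : ℝ → ℂ) (V : ℝ) : IQ (fun w => ((‖F w‖ : ℝ) : ℂ)) V = IQ F V := by
  unfold IQ
  apply intervalIntegral.integral_congr
  intro v _
  simp only
  rw [Complex.norm_real, norm_norm]

/-- the weighted sum, normalised -/
noncomputable def Gw (a : ℕ → ℂ) (c : ℂ) (φ : ℝ → ℂ) (v0 v : ℝ) : ℂ :=
  if v < v0 then 0 else Cs (fun n => a n * φ (Real.log n)) v * Complex.exp (c * v) * (φ (max v v0))⁻¹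

lemma inv_cont {φ : ℝ → ℂ} {v0 : ℝ} (hc : ContinuousOn φ (Ici v0)) (hne : ∀ v : ℝ, v0 ≤ v → φ v ≠ 0) :
    Continuous (fun v => (φ (max v v0))⁻¹) := by
  have h1 : Continuous (fun v => φ (max v v0)) :=
    hc.comp_continuous (continuous_id.max continuous_const) fun v => mem_Ici.2 (le_max_right _ _)
  exact h1.inv₀ fun v => hne _ (le_max_right _ _)

lemma inv_bdd {φ : ℝ → ℂ} {v0 : ℝ} (hc : ContinuousOn φ (Ici v0)) (hne : ∀ v : ℝ, v0 ≤ v → φ v ≠ 0) (V : ℝ) :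
    ∃ B : ℝ, 0 ≤ B ∧ ∀ v : ℝ, v ≤ V → ‖(φ (max v v0))⁻¹‖ ≤ B := by
  obtain ⟨B, hB⟩ := (isCompact_Icc (a := v0) (b := max V v0)).exists_bound_of_continuousOn
    ((inv_cont hc hne).continuousOn)
  refine ⟨B, (norm_nonneg _).trans (hB v0 ⟨le_rfl, le_max_right _ _⟩), fun v hv => ?_⟩
  have h1 := hB (max v v0) ⟨le_max_right _ _, max_le_max_right _ hv⟩
  rwa [max_eq_left (le_max_right v v0)] at h1

lemma Gw_ad (a : ℕ → ℂ) {c : ℂ} {φ : ℝ → ℂ} {v0 : ℝ} (hv0 : 0 ≤ v0) (hc : ContinuousOn φ (Ici v0))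
    (hne : ∀ v : ℝ, v0 ≤ v → φ v ≠ 0) : Ad (Gw a c φ v0) := by
  have hG := gc_ad (fun n => a n * φ (Real.log n)) c
  refine ⟨?_, fun v hv => by unfold Gw; rw [if_pos (by linarith)], fun V => ?_⟩
  · unfold Gw
    exact Measurable.ite measurableSet_Iio measurable_const
      (hG.meas.mul (inv_cont hc hne).measurable)
  · obtain ⟨B, hB0, hB⟩ := hG.bdd V
    obtain ⟨B', hB0', hB'⟩ := inv_bdd hc hne V
    refine ⟨B * B', by positivity, fun v hv => ?_⟩
    unfold Gw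
    split_ifs with h
    · rw [norm_zero]
      positivity
    · rw [norm_mul]
      exact mul_le_mul (hB v hv) (hB' v hv) (norm_nonneg _) hB0

theorem near_weight (a : ℕ → ℂ) {c : ℂ} (hc : c.re < 0) {φ ψ : ℝ → ℂ} {v0 : ℝ} (hv0 : 0 ≤ v0)
    (hφc : ContinuousOn φ (Ici v0)) (hd : ∀ v : ℝ, v0 ≤ v → HasDerivWithinAt φ (ψ v) (Ici v) v)
    (hψ0 : ∀ x y : ℝ, v0 ≤ x → v0 ≤ y → IntervalIntegrable ψ volume x y)
    (hφ0 : ∀ x y : ℝ, v0 ≤ x → x ≤ y → ∫ w in x..y, ψ w = φ y - φ x)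
    (hne : ∀ v : ℝ, v0 ≤ v → φ v ≠ 0) (hlim : Tendsto (fun v => ψ v / φ v) atTop (𝓝 0)) :
    Near (gc a c) (Gw a c φ v0) := by
  have hF := gc_ad a c
  have hG := Gw_ad a (c := c) hv0 hφc hne
  refine ⟨hF, hG, fun δ hδ => ?_⟩
  obtain ⟨b, hb⟩ : ∃ b : ℝ, b = -c.re := ⟨_, rfl⟩
  have hb0 : 0 < b := by rw [hb]; linarith
  obtain ⟨m, hm⟩ : ∃ m : ℝ, m = min 1 (δ / 2) := ⟨_, rfl⟩
  have hm0 : 0 < m := by rw [hm]; exact lt_min one_pos (by positivity)
  have hm1 : m ≤ 1 := by rw [hm]; exact min_le_left _ _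
  have hm2 : m ≤ δ / 2 := by rw [hm]; exact min_le_right _ _
  obtain ⟨ε, hε⟩ : ∃ ε : ℝ, ε = b / 2 * m := ⟨_, rfl⟩
  have hε0 : 0 < ε := by rw [hε]; positivity
  have hεb : ε ≤ b / 2 := by
    rw [hε]
    have : b / 2 * m ≤ b / 2 * 1 := by gcongr
    linarith
  -- from `v1` on the logarithmic derivative is at most `ε`
  obtain ⟨v1, hv1, hb1⟩ : ∃ v1 : ℝ, v0 ≤ v1 ∧ ∀ v : ℝ, v1 ≤ v → ‖ψ v‖ ≤ ε * ‖φ v‖ := by
    have h1 := (tendsto_zero_iff_norm_tendsto_zero.1 hlim).eventually (gt_mem_nhds hε0)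
    obtain ⟨x, hx⟩ := eventually_atTop.1 h1
    refine ⟨max x v0, le_max_right _ _, fun v hv => ?_⟩
    have h2 := hx v ((le_max_left _ _).trans hv)
    have h3 : 0 < ‖φ v‖ := norm_pos_iff.2 (hne v ((le_max_right _ _).trans hv))
    rw [norm_div, div_lt_iff₀ h3] at h2
    exact h2.le
  have hv10 : 0 ≤ v1 := hv0.trans hv1
  have hratio : ∀ w v : ℝ, v1 ≤ w → w ≤ v → ‖φ w‖ ≤ ‖φ v‖ * Real.exp (ε * (v - w)) := fun w v hw hwv =>
    ratio (hφc.mono (Ici_subset_Ici.2 hv1)) (fun s hs => hd s (hv1.trans hs)) (fun s hs => hne s (hv1.trans hs))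
      hb1 hw hwv
  have hψi : ∀ x y : ℝ, v1 ≤ x → v1 ≤ y → IntervalIntegrable ψ volume x y := fun x y hx hy =>
    hψ0 x y (hv1.trans hx) (hv1.trans hy)
  have hφi : ∀ x y : ℝ, v1 ≤ x → x ≤ y → ∫ w in x..y, ψ w = φ y - φ x := fun x y hx hxy =>
    hφ0 x y (hv1.trans hx) hxy
  obtain ⟨K, hK⟩ : ∃ K : ℂ, K = Cs (fun n => a n * φ (Real.log n)) v1 - φ v1 * Cs a v1 := ⟨_, rfl⟩
  obtain ⟨D, hDdef⟩ : ∃ D : ℝ → ℂ, D = fun v => if v < v1 then Gw a c φ v0 v - gc a c v else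
    K * Complex.exp (c * v) * (φ (max v v0))⁻¹ := ⟨_, rfl⟩
  have hD : Ad D := by
    refine ⟨?_, fun v hv => ?_, fun V => ?_⟩
    · rw [hDdef]
      exact Measurable.ite measurableSet_Iio (hG.meas.sub hF.meas)
        ((measurable_const.mul (by fun_prop)).mul (inv_cont hφc hne).measurable)
    · rw [hDdef]
      simp only
      rw [if_pos (by linarith), hG.neg v hv, hF.neg v hv, sub_zero]
    · obtain ⟨B, hB0, hB⟩ := (hG.sub hF).bdd V
      obtain ⟨B', hB0', hB'⟩ := inv_bdd hφc hne V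
      refine ⟨B + ‖K‖ * 1 * B', by positivity, fun v hv => ?_⟩
      rw [hDdef]
      simp only
      split_ifs with h
      · exact (hB v hv).trans (by
          have : 0 ≤ ‖K‖ * 1 * B' := by positivity
          linarith)
      · rw [norm_mul, norm_mul, norm_exp_c]
        have h1 : Real.exp (c.re * v) ≤ 1 := by
          rw [Real.exp_le_one_iff]
          have : 0 ≤ v := hv10.trans (not_lt.1 h)
          nlinarith
        have h2 := hB' v hv
        have h3 : ‖K‖ * Real.exp (c.re * v) * ‖(φ (max v v0))⁻¹‖ ≤ ‖K‖ * 1 * B' := by gcongr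
        linarith
  have hD0 : Z0 D := by
    refine Z0.of_tendsto hD ?_
    have hb2 : 0 < b - ε := by linarith
    have hlim2 : Tendsto (fun v : ℝ => ‖K‖ * (Real.exp (-(ε * v1)) * ‖φ v1‖⁻¹) * Real.exp (-((b - ε) * v))) atTop
        (𝓝 (‖K‖ * (Real.exp (-(ε * v1)) * ‖φ v1‖⁻¹) * 0)) :=
      (Real.tendsto_exp_neg_atTop_nhds_zero.comp (tendsto_id.const_mul_atTop hb2)).const_mul _
    rw [mul_zero] at hlim2
    rw [tendsto_zero_iff_norm_tendsto_zero]
    refine squeeze_zero' (Eventually.of_forall fun v => norm_nonneg _) ?_ hlim2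
    filter_upwards [eventually_ge_atTop v1] with v hv
    rw [hDdef]
    simp only
    rw [if_neg (not_lt.2 hv), norm_mul, norm_mul, norm_exp_c, norm_inv, max_eq_left (hv1.trans hv)]
    have h1 := hratio v1 v le_rfl hv
    have h2 : 0 < ‖φ v1‖ := norm_pos_iff.2 (hne v1 hv1)
    have h3 : 0 < ‖φ v‖ := norm_pos_iff.2 (hne v (hv1.trans hv))
    have h4 : ‖φ v‖⁻¹ ≤ Real.exp (ε * (v - v1)) * ‖φ v1‖⁻¹ := by
      rw [← div_eq_mul_inv, le_div_iff₀ h2, inv_mul_le_iff₀ h3]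
      exact h1
    calc ‖K‖ * Real.exp (c.re * v) * ‖φ v‖⁻¹ ≤
        ‖K‖ * Real.exp (c.re * v) * (Real.exp (ε * (v - v1)) * ‖φ v1‖⁻¹) := by gcongr
      _ = ‖K‖ * ‖φ v1‖⁻¹ * (Real.exp (c.re * v) * Real.exp (ε * (v - v1))) := by ring
      _ = ‖K‖ * ‖φ v1‖⁻¹ * (Real.exp (-(ε * v1)) * Real.exp (-((b - ε) * v))) := by
        rw [← Real.exp_add, ← Real.exp_add, hb]
        congr 2
        ring
      _ = _ := by ring
  -- the remainder
  obtain ⟨R, hR⟩ : ∃ R : ℝ → ℂ, R = fun v => D v - (Gw a c φ v0 v - gc a c v) := ⟨_, rfl⟩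
  have hRad : Ad R := by
    rw [hR]
    exact hD.sub (hG.sub hF)
  have hRb : ∀ v : ℝ, 0 ≤ v → ‖R v‖ ≤ ε * ‖ek (b - ε) (fun w => ((‖gc a c w‖ : ℝ) : ℂ)) v‖ := by
    intro v hv
    rcases lt_or_ge v v1 with h | h
    · rw [hR]
      simp only
      rw [hDdef]
      simp only
      rw [if_pos h, sub_self, norm_zero]
      positivity
    · have hvv0 : v0 ≤ v := hv1.trans h
      have hφv : φ v ≠ 0 := hne v hvv0
      have hφv' : 0 < ‖φ v‖ := norm_pos_iff.2 hφv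
      have e1 : R v = Complex.exp (c * v) * (φ v)⁻¹ * ∫ w in v1..v, Cs a w * ψ w := by
        have h1 := abelC a h hψi hφi
        rw [hR]
        simp only
        rw [hDdef]
        simp only
        unfold Gw gc
        rw [if_neg (not_lt.2 h), if_neg (not_lt.2 hvv0), max_eq_left hvv0, hK]
        have h2 : Cs (fun n => a n * φ (Real.log n)) v = Cs (fun n => a n * φ (Real.log n)) v1 + φ v * Cs a v -
            φ v1 * Cs a v1 - ∫ w in v1..v, Cs a w * ψ w := by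
          linear_combination h1
        rw [h2]
        field_simp
        ring
      have hi : IntervalIntegrable (fun w => ‖gc a c w‖ * Real.exp ((b - ε) * w)) volume 0 v := by
        have h1 : IntervalIntegrable (fun w => ‖gc a c w‖) volume 0 v := (Ad.ii hF 0 v).norm
        exact h1.mul_continuousOn (Continuous.continuousOn (by fun_prop))
      rw [e1, norm_mul, norm_mul, norm_exp_c, norm_inv, norm_ek _ hv]
      have h2 : ‖∫ w in v1..v, Cs a w * ψ w‖ ≤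
          ∫ w in v1..v, (ε * ‖φ v‖ * Real.exp (ε * v)) * (‖gc a c w‖ * Real.exp ((b - ε) * w)) := by
        refine intervalIntegral.norm_integral_le_of_norm_le h (Eventually.of_forall fun w hw => ?_) ?_
        · rw [norm_mul]
          have h3 : ‖Cs a w‖ = ‖gc a c w‖ * Real.exp (b * w) := by
            unfold gc
            rw [norm_mul, norm_exp_c, mul_assoc, ← Real.exp_add, hb]
            have : c.re * w + -c.re * w = 0 := by ring
            rw [this, Real.exp_zero, mul_one]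
          have h4 := hb1 w hw.1.le
          have h5 := hratio w v hw.1.le hw.2
          calc ‖Cs a w‖ * ‖ψ w‖ ≤ (‖gc a c w‖ * Real.exp (b * w)) * (ε * (‖φ v‖ * Real.exp (ε * (v - w)))) := by
                rw [h3]
                gcongr
                exact h4.trans (by gcongr)
            _ = (ε * ‖φ v‖) * ‖gc a c w‖ * (Real.exp (b * w) * Real.exp (ε * (v - w))) := by ring
            _ = (ε * ‖φ v‖) * ‖gc a c w‖ * (Real.exp (ε * v) * Real.exp ((b - ε) * w)) := by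
              rw [← Real.exp_add, ← Real.exp_add]
              congr 2
              ring
            _ = _ := by ring
        · apply IntervalIntegrable.const_mul
          refine hi.mono_set ?_
          rw [uIcc_of_le h, uIcc_of_le hv]
          exact Icc_subset_Icc_left hv10
      rw [intervalIntegral.integral_const_mul] at h2
      have h6 : ∫ w in v1..v, ‖gc a c w‖ * Real.exp ((b - ε) * w) ≤
          ∫ w in (0:ℝ)..v, ‖gc a c w‖ * Real.exp ((b - ε) * w) := by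
        refine intervalIntegral.integral_mono_interval hv10 h le_rfl ?_ hi
        exact Eventually.of_forall fun w => by positivity
      calc Real.exp (c.re * v) * ‖φ v‖⁻¹ * ‖∫ w in v1..v, Cs a w * ψ w‖ ≤
          Real.exp (c.re * v) * ‖φ v‖⁻¹ * ((ε * ‖φ v‖ * Real.exp (ε * v)) *
            ∫ w in (0:ℝ)..v, ‖gc a c w‖ * Real.exp ((b - ε) * w)) := by
            gcongr
            exact h2.trans (by gcongr)
        _ = ε * ((Real.exp (c.re * v) * Real.exp (ε * v)) *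
            ∫ w in (0:ℝ)..v, ‖gc a c w‖ * Real.exp ((b - ε) * w)) := by
            field_simp
        _ = _ := by
          rw [← Real.exp_add, hb]
          congr 3
          ring
  refine ⟨D, hD, hD0, fun V hV => ?_⟩
  have e2 : (fun v => Gw a c φ v0 v - gc a c v) = fun v => D v - R v := by
    funext v
    rw [hR]
    ring
  rw [e2]
  have hbε : 0 < b - ε := by linarith
  have h1 := IQ_sub hD hRad hV
  have h2 := IQ_le hRad (ek_ad hbε (nF_ad hF)) hV fun v hv => hRb v hv.1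
  have h3 := ek_bd hbε (nF_ad hF) hV
  rw [IQ_nF] at h3
  have h4 : 0 ≤ IQ (gc a c) V := IQ_nonneg _ hV
  have h5 : ε / (b - ε) ≤ m := by
    rw [div_le_iff₀ hbε, hε]
    nlinarith
  have h6 : 0 ≤ ε / (b - ε) := by positivity
  have h7 : IQ R V ≤ m ^ 2 * IQ (gc a c) V := by
    calc IQ R V ≤ ε ^ 2 * ((1 / (b - ε)) ^ 2 * IQ (gc a c) V) := h2.trans (by gcongr)
      _ = (ε / (b - ε)) ^ 2 * IQ (gc a c) V := by ring
      _ ≤ m ^ 2 * IQ (gc a c) V := by gcongr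
  have h8 : m ^ 2 ≤ δ / 2 := by nlinarith
  have h9 : m ^ 2 * IQ (gc a c) V ≤ δ / 2 * IQ (gc a c) V := by gcongr
  linarith

end Pool.Agent.U736.WR
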