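import Pool.Agent.U736.WR.A2

set_option autoImplicit false

/-! # Weights given by a sequence -/

namespace Pool.Agent.U736.WR

open MeasureTheory Filter Topology Set
open Pool.Agent.W120.WM (ZC NT)
open Pool.Agent.R305.FM (Ad fC fC_ad Ad.sub Ad.int_sq)
open Pool.Agent.R613.WM

/-- the difference -/
noncomputable def dl (β : ℕ → ℂ) (n : ℕ) : ℂ := β (n + 1) - β n

/-- the derivative of the interpolation -/
noncomputable def psi (β : ℕ → ℂ) (v : ℝ) : ℂ := dl β ⌊Real.exp v⌋₊ * Real.exp v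

/-- the interpolation -/
noncomputable def phi (β : ℕ → ℂ) (v : ℝ) : ℂ := β 1 + ∫ w in (0:ℝ)..v, psi β w

lemma psi_meas (β : ℕ → ℂ) : Measurable (psi β) := by
  have e : psi β = fun v => (dl β ∘ fun v : ℝ => ⌊Real.exp v⌋₊) v * ((Real.exp v : ℝ) : ℂ) := rfl
  rw [e]
  refine Measurable.mul ?_ (by fun_prop)
  exact (measurable_of_countable _).comp (Nat.measurable_floor.comp Real.measurable_exp)

lemma psi_ii (β : ℕ → ℂ) (x y : ℝ) : IntervalIntegrable (psi β) volume x y := by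
  rw [intervalIntegrable_iff]
  refine Integrable.mono' (g := fun _ => (∑ n ∈ Finset.range (⌊Real.exp (max x y)⌋₊ + 1), ‖dl β n‖) *
    Real.exp (max x y)) (integrableOn_const (by simp [Set.uIoc])) (psi_meas β).aestronglyMeasurable ?_
  refine (ae_restrict_mem measurableSet_uIoc).mono fun v hv => ?_
  unfold psi
  rw [norm_mul, Complex.norm_real, Real.norm_of_nonneg (Real.exp_pos v).le]
  have h1 : ‖dl β ⌊Real.exp v⌋₊‖ ≤ ∑ n ∈ Finset.range (⌊Real.exp (max x y)⌋₊ + 1), ‖dl β n‖ := by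
    apply Finset.single_le_sum (f := fun n => ‖dl β n‖) (fun n _ => norm_nonneg _)
    rw [Finset.mem_range]
    have := Nat.floor_le_floor (Real.exp_le_exp.2 hv.2)
    omega
  have h2 : Real.exp v ≤ Real.exp (max x y) := Real.exp_le_exp.2 hv.2
  gcongr

lemma phi_int (β : ℕ → ℂ) (x y : ℝ) : ∫ w in x..y, psi β w = phi β y - phi β x := by
  unfold phi
  have := intervalIntegral.integral_add_adjacent_intervals (psi_ii β 0 x) (psi_ii β x y)
  rw [← this]
  ring

lemma phi_cont (β : ℕ → ℂ) : Continuous (phi β) := by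
  unfold phi
  exact continuous_const.add (intervalIntegral.continuous_primitive (fun a b => psi_ii β a b) 0)

lemma floor_ev (v : ℝ) : ∀ᶠ w in 𝓝[≥] v, ⌊Real.exp w⌋₊ = ⌊Real.exp v⌋₊ := by
  have h1 : Real.exp v < (⌊Real.exp v⌋₊ : ℝ) + 1 := Nat.lt_floor_add_one _
  have h2 : ∀ᶠ w in 𝓝 v, Real.exp w < (⌊Real.exp v⌋₊ : ℝ) + 1 :=
    Real.continuous_exp.continuousAt.eventually (gt_mem_nhds h1)
  filter_upwards [h2.filter_mono nhdsWithin_le_nhds, self_mem_nhdsWithin] with w hw1 hw2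
  apply le_antisymm
  · have h3 : ⌊Real.exp w⌋₊ < ⌊Real.exp v⌋₊ + 1 := by
      rw [Nat.floor_lt (Real.exp_pos w).le]
      push_cast
      exact hw1
    omega
  · exact Nat.floor_le_floor (Real.exp_le_exp.2 hw2)

lemma psi_right (β : ℕ → ℂ) (v : ℝ) : ContinuousWithinAt (psi β) (Ici v) v := by
  have h1 : ContinuousWithinAt (fun w : ℝ => dl β ⌊Real.exp v⌋₊ * ((Real.exp w : ℝ) : ℂ)) (Ici v) v :=
    Continuous.continuousWithinAt (by fun_prop)
  refine h1.congr_of_eventuallyEq ?_ rfl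
  filter_upwards [floor_ev v] with w hw
  unfold psi
  rw [hw]

lemma phi_deriv (β : ℕ → ℂ) (v : ℝ) : HasDerivWithinAt (phi β) (psi β v) (Ici v) v := by
  unfold phi
  have h1 := intervalIntegral.integral_hasDerivWithinAt_right (a := 0) (b := v) (s := Ici v) (t := Ioi v)
    (psi_ii β 0 v) ((psi_meas β).aestronglyMeasurable.stronglyMeasurableAtFilter)
    ((psi_right β v).mono Ioi_subset_Ici_self)
  exact h1.const_add (β 1)

/-- the values on `[log n, log (n+1)]` -/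
lemma phi_step (β : ℕ → ℂ) {n : ℕ} (hn : 1 ≤ n) {v : ℝ} (h1 : Real.log n ≤ v) (h2 : v ≤ Real.log (n + 1)) :
    phi β v = phi β (Real.log n) + dl β n * (Real.exp v - n) := by
  have hn0 : (0:ℝ) < n := by exact_mod_cast hn
  have h3 := phi_int β (Real.log n) v
  have h4 : ∫ w in (Real.log n)..v, psi β w = ∫ w in (Real.log n)..v, dl β n * ((Real.exp w : ℝ) : ℂ) := by
    rw [intervalIntegral.integral_of_le h1, intervalIntegral.integral_of_le h1,
      integral_Ioc_eq_integral_Ioo, integral_Ioc_eq_integral_Ioo]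
    refine setIntegral_congr_fun measurableSet_Ioo fun w hw => ?_
    unfold psi
    have h5 : ⌊Real.exp w⌋₊ = n := by
      rw [Nat.floor_eq_iff (Real.exp_pos w).le]
      constructor
      · rw [← Real.exp_log hn0]
        exact Real.exp_le_exp.2 hw.1.le
      · have : (0:ℝ) < n + 1 := by linarith
        rw [← Real.exp_log this]
        exact Real.exp_lt_exp.2 (hw.2.trans_le h2)
    rw [h5]
  rw [h4, intervalIntegral.integral_const_mul, intervalIntegral.integral_ofReal, integral_exp,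
    Real.exp_log hn0] at h3
  have h6 : phi β v = phi β (Real.log n) + (phi β v - phi β (Real.log n)) := by ring
  rw [h6, ← h3]
  push_cast
  ring

lemma phi_log (β : ℕ → ℂ) {n : ℕ} (hn : 1 ≤ n) : phi β (Real.log n) = β n := by
  induction n, hn using Nat.le_induction with
  | base =>
    unfold phi
    simp
  | succ n hn ih =>
    have hn0 : (0:ℝ) < n := by exact_mod_cast hn
    have h1 : Real.log n ≤ Real.log (n + 1) := Real.log_le_log hn0 (by linarith)
    have h2 := phi_step β hn h1 le_rfl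
    rw [ih, Real.exp_log (by linarith)] at h2
    push_cast
    rw [h2]
    unfold dl
    push_cast
    ring

/-- `φ` against `β` -/
lemma phi_near (β : ℕ → ℂ) {v : ℝ} (hv : 0 ≤ v) :
    ‖phi β v - β ⌊Real.exp v⌋₊‖ ≤ ‖dl β ⌊Real.exp v⌋₊‖ := by
  obtain ⟨n, hn⟩ : ∃ n : ℕ, n = ⌊Real.exp v⌋₊ := ⟨_, rfl⟩
  have hn1 : 1 ≤ n := by
    rw [hn]
    exact Nat.le_floor (by exact_mod_cast Real.one_le_exp hv)
  have hn0 : (0:ℝ) < n := by exact_mod_cast hn1
  have h1 : (n : ℝ) ≤ Real.exp v := by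
    rw [hn]
    exact Nat.floor_le (Real.exp_pos v).le
  have h2 : Real.exp v < n + 1 := by
    rw [hn]
    exact Nat.lt_floor_add_one _
  have h3 : Real.log n ≤ v := by
    rw [Real.log_le_iff_le_exp hn0]
    exact h1
  have h4 : v ≤ Real.log (n + 1) := by
    rw [Real.le_log_iff_exp_le (by linarith)]
    exact h2.le
  rw [← hn, phi_step β hn1 h3 h4, phi_log β hn1]
  have h5 : β n + dl β n * (Real.exp v - n) - β n = dl β n * ((Real.exp v - n : ℝ) : ℂ) := by
    push_cast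
    ring
  rw [h5, norm_mul, Complex.norm_real, Real.norm_of_nonneg (by linarith)]
  have h6 : 0 ≤ ‖dl β n‖ := norm_nonneg _
  nlinarith

/-- the hypothesis gives the decay of the logarithmic derivative -/
lemma psi_phi {β : ℕ → ℂ} (hβ : ∀ ε : ℝ, 0 < ε → ∀ᶠ n : ℕ in atTop, β n ≠ 0 ∧ n * ‖dl β n‖ ≤ ε * ‖β n‖) {ε : ℝ}
    (hε : 0 < ε) : ∀ᶠ v : ℝ in atTop, phi β v ≠ 0 ∧ ‖psi β v‖ ≤ ε * ‖phi β v‖ ∧ β ⌊Real.exp v⌋₊ ≠ 0 ∧
      ‖phi β v - β ⌊Real.exp v⌋₊‖ ≤ ε * ‖β ⌊Real.exp v⌋₊‖ := by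
  obtain ⟨m, hm⟩ : ∃ m : ℝ, m = min (1 / 2) (ε / 4) := ⟨_, rfl⟩
  have hm0 : 0 < m := by rw [hm]; exact lt_min (by norm_num) (by positivity)
  have hm1 : m ≤ 1 / 2 := by rw [hm]; exact min_le_left _ _
  have hm2 : m ≤ ε / 4 := by rw [hm]; exact min_le_right _ _
  have ht : Tendsto (fun v : ℝ => ⌊Real.exp v⌋₊) atTop atTop := tendsto_nat_floor_atTop.comp Real.tendsto_exp_atTop
  filter_upwards [ht.eventually (hβ m hm0), eventually_ge_atTop (0:ℝ)] with v h1 hv
  have h2 := phi_near β hv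
  obtain ⟨n, hn⟩ : ∃ n : ℕ, n = ⌊Real.exp v⌋₊ := ⟨_, rfl⟩
  rw [← hn] at h1 h2 ⊢
  have hn1 : 1 ≤ n := by
    rw [hn]
    exact Nat.le_floor (by exact_mod_cast Real.one_le_exp hv)
  have hn0 : (1:ℝ) ≤ n := by exact_mod_cast hn1
  obtain ⟨h3, h4⟩ := h1
  have h5 : 0 < ‖β n‖ := norm_pos_iff.2 h3
  have h6 : ‖dl β n‖ ≤ m * ‖β n‖ := by
    have : 1 * ‖dl β n‖ ≤ n * ‖dl β n‖ := by gcongr
    linarith
  have h7 : ‖phi β v - β n‖ ≤ m * ‖β n‖ := h2.trans h6
  have h8 : ‖β n‖ ≤ ‖phi β v‖ + ‖phi β v - β n‖ := by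
    have := norm_sub_le (phi β v) (phi β v - β n)
    rwa [sub_sub_cancel] at this
  have h9 : ‖β n‖ / 2 ≤ ‖phi β v‖ := by nlinarith
  refine ⟨norm_pos_iff.1 (by linarith), ?_, h3, h7.trans (by gcongr; linarith)⟩
  unfold psi
  rw [← hn, norm_mul, Complex.norm_real, Real.norm_of_nonneg (Real.exp_pos v).le]
  have h10 : Real.exp v ≤ 2 * n := by
    have : Real.exp v < n + 1 := by
      rw [hn]
      exact Nat.lt_floor_add_one _
    linarith
  calc ‖dl β n‖ * Real.exp v ≤ ‖dl β n‖ * (2 * n) := by gcongr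
    _ = 2 * (n * ‖dl β n‖) := by ring
    _ ≤ 2 * (m * ‖β n‖) := by gcongr
    _ ≤ 2 * (ε / 4 * (2 * ‖phi β v‖)) := by
      gcongr
      linarith
    _ = ε * ‖phi β v‖ := by ring

/-- the sum normalised by the value of the sequence -/
noncomputable def Gs (s b : ℕ → ℂ) (v : ℝ) : ℂ :=
  Cs s v * Complex.exp (-(1 / 2) * v) * (b ⌊Real.exp v⌋₊)⁻¹

lemma Gs_ad (s b : ℕ → ℂ) : Ad (Gs s b) := by
  have hG := gc_ad s (-(1 / 2))
  have hm : Measurable (fun v : ℝ => (b ⌊Real.exp v⌋₊)⁻¹) := by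
    have e : (fun v : ℝ => (b ⌊Real.exp v⌋₊)⁻¹) = (fun n : ℕ => (b n)⁻¹) ∘ fun v : ℝ => ⌊Real.exp v⌋₊ := rfl
    rw [e]
    exact (measurable_of_countable _).comp (Nat.measurable_floor.comp Real.measurable_exp)
  refine ⟨hG.meas.mul hm, fun v hv => by unfold Gs; rw [Cs_neg s hv, zero_mul, zero_mul], fun V => ?_⟩
  obtain ⟨B, hB0, hB⟩ := hG.bdd V
  refine ⟨B * ∑ n ∈ Finset.range (⌊Real.exp V⌋₊ + 1), ‖(b n)⁻¹‖, by positivity, fun v hv => ?_⟩
  unfold Gs
  rw [norm_mul]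
  have h1 : ‖(b ⌊Real.exp v⌋₊)⁻¹‖ ≤ ∑ n ∈ Finset.range (⌊Real.exp V⌋₊ + 1), ‖(b n)⁻¹‖ := by
    apply Finset.single_le_sum (f := fun n => ‖(b n)⁻¹‖) (fun n _ => norm_nonneg _)
    rw [Finset.mem_range]
    have := Nat.floor_le_floor (Real.exp_le_exp.2 hv)
    omega
  exact mul_le_mul (hB v hv) h1 (norm_nonneg _) hB0

/-- `n (b(n+1)/b(n) - 1) → -κ` in terms of `β(n) = b(n) n^κ` -/
lemma beta_dec {b : ℕ → ℂ} {κ : ℂ} (hb : Tendsto (fun n : ℕ => (n : ℂ) * (b (n + 1) / b n - 1)) atTop (𝓝 (-κ))) :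
    ∀ ε : ℝ, 0 < ε → ∀ᶠ n : ℕ in atTop, b n * Complex.exp (κ * Real.log n) ≠ 0 ∧
      n * ‖dl (fun n : ℕ => b n * Complex.exp (κ * Real.log n)) n‖ ≤ ε * ‖b n * Complex.exp (κ * Real.log n)‖ := by
  -- the sequence does not vanish for large `n`
  have hne : ∀ᶠ n : ℕ in atTop, b n ≠ 0 := by
    have h1 := hb.norm.eventually (gt_mem_nhds (lt_add_one ‖-κ‖))
    filter_upwards [h1, eventually_gt_atTop ⌈‖-κ‖ + 1⌉₊] with n h2 h3 h4
    rw [h4, div_zero, zero_sub, mul_neg, mul_one, norm_neg, Complex.norm_natCast] at h2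
    have h5 := Nat.lt_of_ceil_lt h3
    linarith
  -- `n (log (n+1) - log n) → 1`
  have hlog : Tendsto (fun n : ℕ => (n : ℂ) * (κ * ((Real.log (n + 1) - Real.log n : ℝ) : ℂ))) atTop (𝓝 κ) := by
    have h1 : Tendsto (fun n : ℕ => (n : ℝ) * Real.log (1 + 1 / (n : ℝ))) atTop (𝓝 1) :=
      (Real.tendsto_mul_log_one_add_div_atTop 1).comp tendsto_natCast_atTop_atTop
    have h2 : Tendsto (fun n : ℕ => κ * (((n : ℝ) * Real.log (1 + 1 / (n : ℝ)) : ℝ) : ℂ)) atTop (𝓝 (κ * ((1:ℝ) : ℂ))) :=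
      ((Complex.continuous_ofReal.tendsto _).comp h1).const_mul κ
    rw [Complex.ofReal_one, mul_one] at h2
    refine h2.congr' ?_
    filter_upwards [eventually_ge_atTop 1] with n hn
    have hn0 : (0:ℝ) < n := by exact_mod_cast hn
    have h3 : Real.log (1 + 1 / (n : ℝ)) = Real.log (n + 1) - Real.log n := by
      rw [← Real.log_div (by linarith) hn0.ne']
      congr 1
      field_simp
    rw [h3]
    push_cast
    ring
  obtain ⟨z, hz⟩ : ∃ z : ℕ → ℂ, z = fun n : ℕ => κ * ((Real.log ((n:ℝ) + 1) - Real.log (n:ℝ) : ℝ) : ℂ) := ⟨_, rfl⟩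
  have hz1 : Tendsto (fun n : ℕ => (n : ℂ) * z n) atTop (𝓝 κ) := by
    rw [hz]
    exact hlog
  have hinv : Tendsto (fun n : ℕ => ((n : ℂ))⁻¹) atTop (𝓝 0) := tendsto_inv_atTop_nhds_zero_nat
  have hz0 : Tendsto z atTop (𝓝 0) := by
    have h1 := hinv.mul hz1
    rw [zero_mul] at h1
    refine h1.congr' ?_
    filter_upwards [eventually_ge_atTop 1] with n hn
    have hn0 : (n : ℂ) ≠ 0 := by exact_mod_cast (by omega : n ≠ 0)
    field_simp
  have hexp : Tendsto (fun n : ℕ => (n : ℂ) * (Complex.exp (z n) - 1)) atTop (𝓝 κ) := by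
    have h1 : Tendsto (fun n : ℕ => (n : ℂ) * (Complex.exp (z n) - 1 - z n)) atTop (𝓝 0) := by
      rw [tendsto_zero_iff_norm_tendsto_zero]
      have h2 : Tendsto (fun n : ℕ => ‖(n : ℂ) * z n‖ * ‖z n‖) atTop (𝓝 (‖κ‖ * ‖(0:ℂ)‖)) := hz1.norm.mul hz0.norm
      rw [norm_zero, mul_zero] at h2
      refine squeeze_zero' (Eventually.of_forall fun n => norm_nonneg _) ?_ h2
      have h3 := hz0.norm
      rw [norm_zero] at h3
      filter_upwards [h3.eventually (gt_mem_nhds one_pos)] with n hn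
      have h4 := Complex.norm_exp_sub_one_sub_id_le hn.le
      rw [norm_mul, norm_mul]
      calc ‖(n : ℂ)‖ * ‖Complex.exp (z n) - 1 - z n‖ ≤ ‖(n : ℂ)‖ * ‖z n‖ ^ 2 := by gcongr
        _ = _ := by ring
    have h2 := h1.add hz1
    rw [zero_add] at h2
    refine h2.congr fun n => ?_
    ring
  have he1 : Tendsto (fun n : ℕ => Complex.exp (z n)) atTop (𝓝 1) := by
    have := (Complex.continuous_exp.tendsto 0).comp hz0
    rwa [Complex.exp_zero] at this
  -- the relative difference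
  have hrel : Tendsto (fun n : ℕ => (n : ℂ) * (b (n + 1) / b n - 1) * Complex.exp (z n) +
      (n : ℂ) * (Complex.exp (z n) - 1)) atTop (𝓝 0) := by
    have h1 := (hb.mul he1).add hexp
    have h2 : -κ * 1 + κ = 0 := by ring
    rwa [h2] at h1
  intro ε hε
  have h3 := hrel.norm
  rw [norm_zero] at h3
  filter_upwards [hne, h3.eventually (gt_mem_nhds hε), eventually_ge_atTop 1] with n h4 h5 hn
  have hn0 : (0:ℝ) < n := by exact_mod_cast hn
  refine ⟨mul_ne_zero h4 (Complex.exp_ne_zero _), ?_⟩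
  have h6 : (n : ℂ) * dl (fun n : ℕ => b n * Complex.exp (κ * Real.log n)) n =
      ((n : ℂ) * (b (n + 1) / b n - 1) * Complex.exp (z n) + (n : ℂ) * (Complex.exp (z n) - 1)) *
        (b n * Complex.exp (κ * Real.log n)) := by
    unfold dl
    have h7 : Complex.exp (κ * Real.log ((n + 1 : ℕ) : ℝ)) = Complex.exp (z n) * Complex.exp (κ * Real.log n) := by
      rw [← Complex.exp_add, hz]
      congr 1
      push_cast
      ring
    simp only
    rw [h7]
    field_simp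
    ring
  have h7 : (n : ℝ) * ‖dl (fun n : ℕ => b n * Complex.exp (κ * Real.log n)) n‖ =
      ‖(n : ℂ) * dl (fun n : ℕ => b n * Complex.exp (κ * Real.log n)) n‖ := by
    rw [norm_mul, Complex.norm_natCast]
  rw [h7, h6, norm_mul]
  gcongr

end Pool.Agent.U736.WR
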