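import Pool.Agent.U736.WR.A3

set_option autoImplicit false

/-! # The law for weights given by a sequence -/

namespace Pool.Agent.U736.WR

open MeasureTheory Filter Topology Set
open Pool.Agent.W120.WM (ZC NT)
open Pool.Agent.R305.FM (Ad fC fC_ad Ad.sub Ad.int_sq)
open Pool.Agent.R613.WM

lemma floor_log : Tendsto (fun v : ℝ => Real.log ⌊Real.exp v⌋₊ - v) atTop (𝓝 0) := by
  have h1 : Tendsto (fun x : ℝ => (⌊x⌋₊ : ℝ) / x) atTop (𝓝 1) := tendsto_nat_floor_div_atTop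
  have h2 : Tendsto (fun v : ℝ => Real.log ((⌊Real.exp v⌋₊ : ℝ) / Real.exp v)) atTop (𝓝 (Real.log 1)) :=
    ((Real.continuousAt_log one_ne_zero).tendsto.comp h1).comp Real.tendsto_exp_atTop
  rw [Real.log_one] at h2
  refine h2.congr' ?_
  filter_upwards [eventually_ge_atTop (0:ℝ)] with v hv
  have h3 : 1 ≤ ⌊Real.exp v⌋₊ := Nat.le_floor (by exact_mod_cast Real.one_le_exp hv)
  have h4 : ((⌊Real.exp v⌋₊ : ℕ) : ℝ) ≠ 0 := by exact_mod_cast (by omega : ⌊Real.exp v⌋₊ ≠ 0)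
  rw [Real.log_div h4 (Real.exp_pos v).ne', Real.log_exp]

theorem near_seq (P : Finset ℕ) {κ : ℂ} (hκ : κ.re < 1 / 2) {b : ℕ → ℂ}
    (hb : Tendsto (fun n : ℕ => (n : ℂ) * (b (n + 1) / b n - 1)) atTop (𝓝 (-κ))) :
    ∃ G1 : ℝ → ℂ, Near (gc (bC P κ) (κ - 1 / 2)) G1 ∧ Near G1 (Gs (fun n => (muP P n : ℂ) * b n) b) := by
  obtain ⟨β, hβ⟩ : ∃ β : ℕ → ℂ, β = fun n : ℕ => b n * Complex.exp (κ * Real.log n) := ⟨_, rfl⟩
  have hdec := beta_dec hb
  rw [← hβ] at hdec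
  have hdec' : ∀ ε : ℝ, 0 < ε → ∀ᶠ n : ℕ in atTop, β n ≠ 0 ∧ n * ‖dl β n‖ ≤ ε * ‖β n‖ := by
    intro ε hε
    filter_upwards [hdec ε hε] with n hn
    refine ⟨?_, ?_⟩
    · have := hn.1
      rw [hβ]
      exact this
    · have := hn.2
      rw [show b n * Complex.exp (κ * Real.log n) = β n by rw [hβ]] at this
      exact this
  have hpp := fun ε : ℝ => fun hε : 0 < ε => psi_phi hdec' hε
  obtain ⟨x0, hx0⟩ := eventually_atTop.1 (hpp 1 one_pos)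
  obtain ⟨v0, hv0⟩ : ∃ v0 : ℝ, v0 = max x0 0 := ⟨_, rfl⟩
  have hv00 : 0 ≤ v0 := by rw [hv0]; exact le_max_right _ _
  have hxv0 : x0 ≤ v0 := by rw [hv0]; exact le_max_left _ _
  have hne : ∀ v : ℝ, v0 ≤ v → phi β v ≠ 0 := fun v hv => (hx0 v (hxv0.trans hv)).1
  have hlim : Tendsto (fun v => psi β v / phi β v) atTop (𝓝 0) := by
    rw [Metric.tendsto_nhds]
    intro ε hε
    filter_upwards [hpp (ε / 2) (by positivity)] with v hv
    have h1 : 0 < ‖phi β v‖ := norm_pos_iff.2 hv.1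
    rw [dist_zero_right, norm_div, div_lt_iff₀ h1]
    have h2 := hv.2.1
    nlinarith
  have hc : (κ - 1 / 2).re < 0 := by
    simp
    linarith
  have n1 := near_weight (bC P κ) hc hv00 (phi_cont β).continuousOn (fun v _ => phi_deriv β v)
    (fun x y _ _ => psi_ii β x y) (fun x y _ _ => phi_int β x y) hne hlim
  refine ⟨_, n1, near_mul n1.hG (Gs_ad _ b) fun ε hε => ?_⟩
  have hCs : Cs (fun n => bC P κ n * phi β (Real.log n)) = Cs (fun n => (muP P n : ℂ) * b n) := by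
    apply Cs_congr
    intro n hn
    rw [phi_log β hn, hβ]
    unfold bC
    have : Complex.exp (-κ * Real.log n) * Complex.exp (κ * Real.log n) = 1 := by
      rw [← Complex.exp_add, neg_mul, neg_add_cancel, Complex.exp_zero]
    linear_combination (muP P n : ℂ) * b n * this
  -- the quotient
  have hq1 : Tendsto (fun v : ℝ => phi β v / β ⌊Real.exp v⌋₊) atTop (𝓝 1) := by
    rw [Metric.tendsto_nhds]
    intro ε hε
    filter_upwards [hpp (ε / 2) (by positivity)] with v hv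
    obtain ⟨h1, h2, h3, h4⟩ := hv
    have h5 : 0 < ‖β ⌊Real.exp v⌋₊‖ := norm_pos_iff.2 h3
    rw [dist_eq_norm]
    have h6 : phi β v / β ⌊Real.exp v⌋₊ - 1 = (phi β v - β ⌊Real.exp v⌋₊) / β ⌊Real.exp v⌋₊ := by
      field_simp
    rw [h6, norm_div, div_lt_iff₀ h5]
    nlinarith
  have hq2 : Tendsto (fun v : ℝ => Complex.exp (κ * ((Real.log ⌊Real.exp v⌋₊ - v : ℝ) : ℂ))) atTop (𝓝 1) := by
    have h1 : Tendsto (fun v : ℝ => κ * ((Real.log ⌊Real.exp v⌋₊ - v : ℝ) : ℂ)) atTop (𝓝 (κ * ((0:ℝ) : ℂ))) :=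
      ((Complex.continuous_ofReal.tendsto _).comp floor_log).const_mul κ
    rw [Complex.ofReal_zero, mul_zero] at h1
    have := (Complex.continuous_exp.tendsto 0).comp h1
    rwa [Complex.exp_zero] at this
  have hq3 := hq1.mul hq2
  rw [mul_one] at hq3
  filter_upwards [Metric.tendsto_nhds.1 hq3 ε hε, hpp 1 one_pos, eventually_ge_atTop v0] with v h1 h2 h3
  obtain ⟨h4, _, h5, _⟩ := h2
  rw [dist_eq_norm] at h1
  have hb0 : b ⌊Real.exp v⌋₊ ≠ 0 := by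
    intro h
    apply h5
    rw [hβ]
    simp only
    rw [h, zero_mul]
  have e1 : Gs (fun n => (muP P n : ℂ) * b n) b v - Gw (bC P κ) (κ - 1 / 2) (phi β) v0 v =
      (phi β v / β ⌊Real.exp v⌋₊ * Complex.exp (κ * ((Real.log ⌊Real.exp v⌋₊ - v : ℝ) : ℂ)) - 1) *
        Gw (bC P κ) (κ - 1 / 2) (phi β) v0 v := by
    unfold Gs Gw
    rw [if_neg (not_lt.2 h3), max_eq_left h3, hCs]
    have e2 : β ⌊Real.exp v⌋₊ = b ⌊Real.exp v⌋₊ * Complex.exp (κ * Real.log ⌊Real.exp v⌋₊) := by rw [hβ]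
    have e3 : Complex.exp (-(1 / 2) * v) = Complex.exp ((κ - 1 / 2) * v) * Complex.exp (-(κ * v)) := by
      rw [← Complex.exp_add]
      congr 1
      ring
    have e4 : Complex.exp (κ * ((Real.log ⌊Real.exp v⌋₊ - v : ℝ) : ℂ)) =
        Complex.exp (κ * Real.log ⌊Real.exp v⌋₊) * Complex.exp (-(κ * v)) := by
      rw [← Complex.exp_add]
      congr 1
      push_cast
      ring
    have e5 := Complex.exp_ne_zero (κ * Real.log ⌊Real.exp v⌋₊)
    rw [e2, e3, e4]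
    field_simp
  rw [e1, norm_mul]
  gcongr

lemma omm_p' (p : ℕ) (hp : p.Prime) (ρ : ℂ) :
    omm (Real.exp (-(1 / 2) * Real.log p)) (Real.log p) ρ = 1 - (p : ℂ) ^ (-ρ) := by
  have hp0 : (p : ℂ) ≠ 0 := by exact_mod_cast hp.pos.ne'
  unfold omm
  rw [Complex.cpow_def_of_ne_zero hp0, ← Complex.natCast_log, Complex.ofReal_exp, ← Complex.exp_add]
  congr 2
  push_cast
  ring

lemma eP_eq' (q : ℕ) (ρ : ℂ) : eP q.primeFactors ρ = (∏ p ∈ q.primeFactors, (1 - (p : ℂ) ^ (-ρ)))⁻¹ := by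
  unfold eP
  rw [← Finset.prod_inv_distrib]
  refine Finset.prod_congr rfl fun p hp => ?_
  rw [omm_p' p (Nat.prime_of_mem_primeFactors hp)]

lemma mC_eq (q : ℕ) {κ : ℂ} (hκ : κ.re < 1 / 2) {ρ : ℂ} (hρ : ρ.re = 1 / 2) :
    ‖mC q.primeFactors κ ρ‖ ^ 2 / ‖ρ * deriv riemannZeta ρ‖ ^ 2 =
      1 / ‖(ρ - κ) * deriv riemannZeta ρ * ∏ p ∈ q.primeFactors, (1 - (p : ℂ) ^ (-ρ))‖ ^ 2 := by
  have hρ0 : ‖ρ‖ ≠ 0 := by
    rw [norm_ne_zero_iff]
    rintro rfl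
    simp at hρ
  unfold mC
  rw [facC hκ hρ, eP_eq']
  rw [norm_mul, norm_div, norm_inv, norm_mul, norm_mul, norm_mul]
  field_simp

/-- the law -/
theorem law_seq (q : ℕ) {κ : ℂ} (hκ : κ.re < 1 / 2) {b : ℕ → ℂ}
    (hb : Tendsto (fun n : ℕ => (n : ℂ) * (b (n + 1) / b n - 1)) atTop (𝓝 (-κ))) {I : ℝ → ℝ}
    (hI : ∀ x : ℝ, 1 ≤ x → I x = IQ (Gs (fun n => (muP q.primeFactors n : ℂ) * b n) b) (Real.log x)) :
    LawI I (SM (mC q.primeFactors κ)) ∧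
    (ZC → Summable (fun ρ : NT => ‖mC q.primeFactors κ ρ‖ ^ 2 / ‖(ρ : ℂ) * deriv riemannZeta ρ‖ ^ 2) ∧
      0 < SM (mC q.primeFactors κ)) := by
  have hP : ∀ p ∈ q.primeFactors, p.Prime := fun p hp => Nat.prime_of_mem_primeFactors hp
  have h := good_c q.primeFactors hP hκ
  obtain ⟨G1, n1, n2⟩ := near_seq q.primeFactors hκ hb
  obtain ⟨T, hT, hTG⟩ := h.op
  obtain ⟨K, hK, hKb⟩ := h.low
  refine ⟨law_gen n2.hG hI (fun hZ => ?_) (fun hZ => ?_), ?_⟩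
  · have := lim_T hZ hT
    rw [hTG] at this
    exact n2.fin (n1.fin this)
  · exact n2.top (n1.top (top_T hZ hK hKb))
  · exact (law_good h (I := fun x => IQ (gc (bC q.primeFactors κ) (κ - 1 / 2)) (Real.log x))
      (fun x _ => rfl)).2

end Pool.Agent.U736.WR
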